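import Pool.Agent.Helper25.VF.WPlus
import Pool.Agent.Helper88.WP.ConvR
import Pool.Agent.Helper19.WZ.W3
import Pool.Agent.Helper19.WZ.PLR

/-!
# W++: the final form, the sum over all cells as a hypothesis
-/

set_option autoImplicit false

namespace Pool.Agent.Helper25.WH

open Finset Pool.Helper19.V4 Pool.Helper19.WZ
open Pool.Agent.Helper25.WM (Bd Sup bd_of_sup zf_mono)

/-- the exponent obtained from a zero free half plane `Re s > a` -/
noncomputable def hh (a : ℝ) : ℝ := max a (min ((13 + 4 * a) / 20) (43 / 54))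

theorem wpp_of (hP : ∀ a : ℝ, 1 / 2 ≤ a → a ≤ 3 / 4 → ZF a → PLR (1 / 2) ((13 + 4 * a) / 20)) {a : ℝ} (ha : 1 / 2 ≤ a) :
    (ZF a → Bd (hh a)) ∧ (Bd a → ZF a) := by
  refine ⟨fun hZ => ?_, fun h => Pool.Agent.Helper88.WP.zf_of_B ha h⟩
  apply bd_of_sup
  unfold hh
  rcases le_or_gt ((13 + 4 * a) / 20) (43 / 54) with h | h
  · have h1 : a ≤ 3 / 4 := by linarith
    have h2 : a ≤ (13 + 4 * a) / 20 := by linarith
    rw [min_eq_left h, max_eq_right h2]
    intro ε hε
    obtain ⟨C, _, hC⟩ := asm34 (by linarith) (hP a ha h1 hZ) ε hε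
    exact ⟨C, fun N hN x => hC N hN x⟩
  · rw [min_eq_right h.le]
    exact (w2 (le_max_right _ _)).2 (zf_mono (le_max_left _ _) hZ)

end Pool.Agent.Helper25.WH
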