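import Pool.Agent.Helper25.WH.Hold

/-!
# W++: the number of large values of one box
-/

set_option autoImplicit false

namespace Pool.Agent.Helper25.WH

open ArithmeticFunction Finset
open Pool.Helper5.WB

lemma box_card {q r T z : ℕ} {M G K V : ℝ} (hA : (1 : ℝ) ≤ (r : ℝ) * T) (hM : 1 ≤ M)
    (hG : 1 ≤ G) (hK : 1 ≤ K) (hV : M ^ (1 / 2 : ℝ) ≤ V) {b : List (Bool × ℕ)} (hb : (sz b : ℝ) ≤ M * G)
    (s : DirichletCharacter ℂ r × ℤ → ℝ) (U : Finset (DirichletCharacter ℂ r × ℤ))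
    (h2 : ∀ c : List (Bool × ℕ), c.length ≤ b.length → (sz c : ℝ) ≤ sz b →
      ∑ p ∈ U, KP z q c p.1 (s p) ^ 2 ≤ K / 2 * (((r : ℝ) * T + sz c) * sz c))
    (h4 : ∀ f ∈ b, ∑ p ∈ U, ‖KF f.1 z f.2 q p.1 (s p)‖ ^ 4 ≤ K * ((r : ℝ) * T * ((2 : ℝ) ^ f.2) ^ 2))
    (hl : ∀ p ∈ U, V ≤ KP z q b p.1 (s p)) :
    (U.card : ℝ) ≤ K * G * (((r : ℝ) * T * M ^ (2 / 5 : ℝ) + ((r : ℝ) * T) ^ (3 / 5 : ℝ) * M ^ (3 / 5 : ℝ)) /
      V ^ (4 / 5 : ℝ) + M / V) := by
  obtain ⟨A, hAd⟩ : ∃ A : ℝ, A = (r : ℝ) * T := ⟨_, rfl⟩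
  rw [← hAd] at hA ⊢
  simp only [← hAd] at h2 h4
  have hA0 : 0 < A := by linarith
  have hM0 : 0 < M := by linarith
  have hG0 : 0 < G := by linarith
  have hK0 : 0 < K := by linarith
  have hV1 : 1 ≤ V := le_trans (Real.one_le_rpow hM (by norm_num)) hV
  have hV0 : 0 < V := by linarith
  have hVp : 0 < V ^ (4 / 5 : ℝ) := Real.rpow_pos_of_pos hV0 _
  obtain ⟨Y, hY⟩ : ∃ Y : ℝ, Y = Real.sqrt (M * G) := ⟨_, rfl⟩
  have hMG : 1 ≤ M * G := one_le_mul_of_one_le_of_one_le hM hG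
  have hY1 : 1 ≤ Y := by rw [hY, Real.one_le_sqrt]; exact hMG
  have hY2 : Y ^ 2 = M * G := by rw [hY]; exact Real.sq_sqrt (by linarith)
  have hY0 : 0 < Y := by linarith
  -- the three ways to conclude
  have fin1 : (U.card : ℝ) * V ^ (4 / 5 : ℝ) ≤ K * G * (A * M ^ (2 / 5 : ℝ)) →
      (U.card : ℝ) ≤ K * G * ((A * M ^ (2 / 5 : ℝ) + A ^ (3 / 5 : ℝ) * M ^ (3 / 5 : ℝ)) /
      V ^ (4 / 5 : ℝ) + M / V) := by
    intro h
    have e1 : (U.card : ℝ) ≤ K * G * (A * M ^ (2 / 5 : ℝ)) / V ^ (4 / 5 : ℝ) := by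
      rw [le_div_iff₀ hVp]
      exact h
    refine e1.trans ?_
    rw [mul_div_assoc]
    apply mul_le_mul_of_nonneg_left _ (by positivity)
    rw [add_div, add_assoc]
    exact le_add_of_nonneg_right (by positivity)
  have fin2 : (U.card : ℝ) * V ^ (4 / 5 : ℝ) ≤ K * G * (A ^ (3 / 5 : ℝ) * M ^ (3 / 5 : ℝ)) →
      (U.card : ℝ) ≤ K * G * ((A * M ^ (2 / 5 : ℝ) + A ^ (3 / 5 : ℝ) * M ^ (3 / 5 : ℝ)) /
      V ^ (4 / 5 : ℝ) + M / V) := by
    intro h
    have e1 : (U.card : ℝ) ≤ K * G * (A ^ (3 / 5 : ℝ) * M ^ (3 / 5 : ℝ)) / V ^ (4 / 5 : ℝ) := by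
      rw [le_div_iff₀ hVp]
      exact h
    refine e1.trans ?_
    rw [mul_div_assoc]
    apply mul_le_mul_of_nonneg_left _ (by positivity)
    rw [add_div, add_right_comm]
    exact le_add_of_nonneg_left (by positivity)
  rcases le_or_gt (sz b : ℝ) Y with hsb | hsb
  · -- a short box
    have h5 := h2 b le_rfl le_rfl
    have h6 : (U.card : ℝ) * V ^ 2 ≤ K / 2 * ((A + sz b) * sz b) := by
      refine le_trans ?_ h5
      rw [← nsmul_eq_mul]
      exact card_nsmul_le_sum _ _ _ fun p hp => pow_le_pow_left₀ hV0.le (hl p hp) 2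
    have hsb1 := sz_one b
    have h7 : (U.card : ℝ) * V ^ 2 ≤ K / 2 * ((A + Y) * Y) := by
      refine h6.trans ?_
      apply mul_le_mul_of_nonneg_left _ (by positivity)
      exact mul_le_mul (by linarith) hsb (by linarith) (by positivity)
    have h8 : V ^ 2 = V ^ (4 / 5 : ℝ) * V ^ (6 / 5 : ℝ) := by
      rw [← Real.rpow_natCast V 2, ← Real.rpow_add hV0]
      norm_num
    have h9 : M ^ (1 / 10 : ℝ) ≤ V ^ (6 / 5 : ℝ) := by
      calc M ^ (1 / 10 : ℝ) ≤ M ^ (3 / 5 : ℝ) := Real.rpow_le_rpow_of_exponent_le hM (by norm_num)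
        _ = (M ^ (1 / 2 : ℝ)) ^ (6 / 5 : ℝ) := by
            rw [← Real.rpow_mul hM0.le]
            norm_num
        _ ≤ V ^ (6 / 5 : ℝ) := Real.rpow_le_rpow (by positivity) hV (by norm_num)
    have h10 : Y ≤ M ^ (1 / 2 : ℝ) * G := by
      have e1 : Y = M ^ (1 / 2 : ℝ) * Real.sqrt G := by
        rw [hY, Real.sqrt_mul hM0.le, Real.sqrt_eq_rpow M]
      rw [e1]
      apply mul_le_mul_of_nonneg_left _ (by positivity)
      rw [Real.sqrt_le_left hG0.le]
      nlinarith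
    have h11 : A * Y / V ^ 2 ≤ G * (A * M ^ (2 / 5 : ℝ) / V ^ (4 / 5 : ℝ)) := by
      rw [h8, ← mul_div_assoc, div_le_div_iff₀ (by positivity) hVp]
      calc A * Y * V ^ (4 / 5 : ℝ) ≤ A * (M ^ (1 / 2 : ℝ) * G) * V ^ (4 / 5 : ℝ) := by gcongr
        _ = G * (A * M ^ (2 / 5 : ℝ)) * (V ^ (4 / 5 : ℝ) * M ^ (1 / 10 : ℝ)) := by
            have e1 : M ^ (1 / 2 : ℝ) = M ^ (2 / 5 : ℝ) * M ^ (1 / 10 : ℝ) := by
              rw [← Real.rpow_add hM0]
              norm_num
            rw [e1]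
            ring
        _ ≤ G * (A * M ^ (2 / 5 : ℝ)) * (V ^ (4 / 5 : ℝ) * V ^ (6 / 5 : ℝ)) := by gcongr
    have h12 : Y ^ 2 / V ^ 2 ≤ G * (M / V) := by
      rw [hY2, ← mul_div_assoc, div_le_div_iff₀ (by positivity) hV0]
      calc M * G * V ≤ M * G * (V * V) := by
            apply mul_le_mul_of_nonneg_left _ (by positivity)
            nlinarith
        _ = G * M * V ^ 2 := by ring
    have h13 : (U.card : ℝ) ≤ K / 2 * ((A + Y) * Y) / V ^ 2 := by
      rw [le_div_iff₀ (by positivity)]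
      exact h7
    have h14 : 0 ≤ G * (A * M ^ (2 / 5 : ℝ) / V ^ (4 / 5 : ℝ)) := by positivity
    have h15 : 0 ≤ G * (M / V) := by positivity
    have h16 : 0 ≤ G * (A ^ (3 / 5 : ℝ) * M ^ (3 / 5 : ℝ) / V ^ (4 / 5 : ℝ)) := by positivity
    calc (U.card : ℝ) ≤ K / 2 * (A * Y / V ^ 2 + Y ^ 2 / V ^ 2) := by
          refine h13.trans (le_of_eq ?_)
          ring
      _ ≤ K * (G * (A * M ^ (2 / 5 : ℝ) / V ^ (4 / 5 : ℝ)) + G * (M / V)) := by
          have e1 : K / 2 * (A * Y / V ^ 2 + Y ^ 2 / V ^ 2) ≤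
            K / 2 * (G * (A * M ^ (2 / 5 : ℝ) / V ^ (4 / 5 : ℝ)) + G * (M / V)) :=
            mul_le_mul_of_nonneg_left (add_le_add h11 h12) (by positivity)
          refine e1.trans ?_
          apply mul_le_mul_of_nonneg_right _ (by positivity)
          linarith
      _ ≤ K * (G * (A * M ^ (2 / 5 : ℝ) / V ^ (4 / 5 : ℝ)) + G * (M / V)) +
          K * (G * (A ^ (3 / 5 : ℝ) * M ^ (3 / 5 : ℝ) / V ^ (4 / 5 : ℝ))) := le_add_of_nonneg_right (by positivity)
      _ = _ := by ring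
  -- a long box
  obtain ⟨c, f, d, hbe, hc, hf⟩ := split b Y hY1 hsb
  have hc1 := sz_one c
  have hd1 := sz_one d
  have he0 : (0 : ℝ) < 2 ^ f.2 := by positivity
  have he1 : (1 : ℝ) ≤ 2 ^ f.2 := one_le_pow₀ (by norm_num)
  have hszb : (sz b : ℝ) = sz c * 2 ^ f.2 * sz d := by
    rw [hbe, sz_append, sz_cons]
    push_cast
    ring
  have hprod : (sz c : ℝ) * 2 ^ f.2 * sz d ≤ M * G := by rw [← hszb]; exact hb
  have hd : (sz d : ℝ) ≤ Y := by
    have e1 : Y * sz d ≤ Y * Y := by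
      calc Y * sz d ≤ (sz c * 2 ^ f.2) * sz d := mul_le_mul_of_nonneg_right hf.le (by linarith)
        _ ≤ M * G := hprod
        _ = Y * Y := by rw [← hY2]; ring
    exact le_of_mul_le_mul_left e1 hY0
  have hlen : b.length = c.length + (d.length + 1) := by
    rw [hbe, List.length_append, List.length_cons]
  have hszc : (sz c : ℝ) ≤ sz b := by
    rw [hszb, mul_assoc]
    exact le_mul_of_one_le_right (by linarith) (one_le_mul_of_one_le_of_one_le he1 hd1)
  have hszd : (sz d : ℝ) ≤ sz b := by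
    rw [hszb]
    exact le_mul_of_one_le_left (by linarith) (one_le_mul_of_one_le_of_one_le hc1 he1)
  have hszfd : (sz (f :: d) : ℝ) ≤ sz b := by
    rw [hszb, sz_cons]
    push_cast
    rw [mul_assoc]
    exact le_mul_of_one_le_left (by positivity) hc1
  have hKc := h2 c (by omega) hszc
  have hKd := h2 d (by omega) hszd
  have hKfd := h2 (f :: d) (by rw [List.length_cons]; omega) hszfd
  have hKf := h4 f (by rw [hbe]; simp)
  have hV' : ∀ p ∈ U, V ≤ KP z q c p.1 (s p) * ‖KF f.1 z f.2 q p.1 (s p)‖ * KP z q d p.1 (s p) := by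
    intro p hp
    have e1 := hl p hp
    rw [hbe, KP_append, KP_cons] at e1
    linarith
  have hV'' : ∀ p ∈ U, V ≤ KP z q c p.1 (s p) * KP z q (f :: d) p.1 (s p) := by
    intro p hp
    have e1 := hl p hp
    rw [hbe, KP_append] at e1
    exact e1
  have sm : ∀ x : ℝ, 0 < x → x ≤ A → K / 2 * ((A + x) * x) ≤ K * (A * x) := by
    intro x hx hxA
    have e1 : (A + x) * x ≤ 2 * A * x := mul_le_mul_of_nonneg_right (by linarith) hx.le
    calc K / 2 * ((A + x) * x) ≤ K / 2 * (2 * A * x) := mul_le_mul_of_nonneg_left e1 (by positivity)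
      _ = K * (A * x) := by ring
  have la : ∀ x : ℝ, A ≤ x → K / 2 * ((A + x) * x) ≤ K * x ^ 2 := by
    intro x hx
    have e1 : (A + x) * x ≤ 2 * x * x := mul_le_mul_of_nonneg_right (by linarith) (by linarith)
    calc K / 2 * ((A + x) * x) ≤ K / 2 * (2 * x * x) := mul_le_mul_of_nonneg_left e1 (by positivity)
      _ = K * x ^ 2 := by ring
  have hprod' : (sz d : ℝ) * 2 ^ f.2 * sz c ≤ M * G := by
    calc (sz d : ℝ) * 2 ^ f.2 * sz c = sz c * 2 ^ f.2 * sz d := by ring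
      _ ≤ M * G := hprod
  rcases le_or_gt (sz c : ℝ) A with hcA | hcA
  · rcases le_or_gt (sz d : ℝ) A with hdA | hdA
    · apply fin1
      refine (holder3 U (fun p => KP z q c p.1 (s p)) (fun p => KP z q d p.1 (s p))
        (fun p => ‖KF f.1 z f.2 q p.1 (s p)‖) (A := K * (A * sz c)) (B := K * (A * sz d))
        (D := K * (A * ((2 : ℝ) ^ f.2) ^ 2)) (by positivity) (by positivity) (by positivity) hV0.le
        (fun p => KP_nonneg z q c _ _) (fun p => KP_nonneg z q d _ _) (fun p => norm_nonneg _)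
        (hKc.trans (sm _ (by linarith) hcA)) (hKd.trans (sm _ (by linarith) hdA)) hKf hV').trans ?_
      exact ar1 hK hA0 (by linarith) (by linarith) he0 hM0 hG hprod
    · apply fin2
      refine (holder3 U (fun p => KP z q d p.1 (s p)) (fun p => KP z q c p.1 (s p))
        (fun p => ‖KF f.1 z f.2 q p.1 (s p)‖) (A := K * (sz d : ℝ) ^ 2) (B := K * (A * sz c))
        (D := K * (A * ((2 : ℝ) ^ f.2) ^ 2)) (by positivity) (by positivity) (by positivity) hV0.le
        (fun p => KP_nonneg z q d _ _) (fun p => KP_nonneg z q c _ _) (fun p => norm_nonneg _)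
        (hKd.trans (la _ hdA.le)) (hKc.trans (sm _ (by linarith) hcA)) hKf (fun p hp => by
          have e1 := hV' p hp
          calc V ≤ _ := e1
            _ = _ := by ring)).trans ?_
      exact ar2 hK hA0 (by linarith) (by linarith) he0 hM0 hG hprod' (by rw [← hY2]; exact pow_le_pow_left₀ (by linarith) hd 2)
  · rcases le_or_gt (sz d : ℝ) A with hdA | hdA
    · apply fin2
      refine (holder3 U (fun p => KP z q c p.1 (s p)) (fun p => KP z q d p.1 (s p))
        (fun p => ‖KF f.1 z f.2 q p.1 (s p)‖) (A := K * (sz c : ℝ) ^ 2) (B := K * (A * sz d))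
        (D := K * (A * ((2 : ℝ) ^ f.2) ^ 2)) (by positivity) (by positivity) (by positivity) hV0.le
        (fun p => KP_nonneg z q c _ _) (fun p => KP_nonneg z q d _ _) (fun p => norm_nonneg _)
        (hKc.trans (la _ hcA.le)) (hKd.trans (sm _ (by linarith) hdA)) hKf hV').trans ?_
      exact ar2 hK hA0 (by linarith) (by linarith) he0 hM0 hG hprod (by rw [← hY2]; exact pow_le_pow_left₀ (by linarith) hc 2)
    · have hfdA : A ≤ (sz (f :: d) : ℝ) := by
        rw [sz_cons]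
        push_cast
        nlinarith
      have h5 := cauchy2 U (fun p => KP z q c p.1 (s p)) (fun p => KP z q (f :: d) p.1 (s p))
        (A := K * (sz c : ℝ) ^ 2) (B := K * (sz (f :: d) : ℝ) ^ 2) (V := V) (by positivity) hV0.le
        (hKc.trans (la _ hcA.le)) (hKfd.trans (la _ hfdA)) hV''
      have h6 : (sz c : ℝ) * sz (f :: d) ≤ M * G := by
        refine le_trans (le_of_eq ?_) hb
        rw [hszb, sz_cons]
        push_cast
        ring
      have h7 : ((U.card : ℝ) * V) ^ 2 ≤ (K * G * M) ^ 2 := by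
        refine h5.trans ?_
        calc K * (sz c : ℝ) ^ 2 * (K * (sz (f :: d) : ℝ) ^ 2) = (K * (sz c * sz (f :: d))) ^ 2 := by ring
          _ ≤ (K * (M * G)) ^ 2 := by
              apply pow_le_pow_left₀ (by positivity)
              exact mul_le_mul_of_nonneg_left h6 hK0.le
          _ = (K * G * M) ^ 2 := by ring
      have h8 : (U.card : ℝ) * V ≤ K * G * M := by
        exact (pow_le_pow_iff_left₀ (by positivity) (by positivity) two_ne_zero).1 h7
      have h9 : (U.card : ℝ) ≤ K * G * (M / V) := by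
        rw [← mul_div_assoc, le_div_iff₀ hV0]
        exact h8
      refine h9.trans ?_
      apply mul_le_mul_of_nonneg_left _ (by positivity)
      exact le_add_of_nonneg_left (by positivity)

end Pool.Agent.Helper25.WH
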