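import Pool.Agent.Helper25.WL.Gen

/-!
# W++: the statements (large values by Hölder's inequality with two second moments and one fourth moment)

Target exponent: `c = (13 + 4 a)/20 = 3/4 + (a - 1/2)/5`.
-/

set_option autoImplicit false

namespace Pool.Agent.Helper25.WH

open ArithmeticFunction Finset
open Pool.Helper5.WB

/-- H1: the second moment of a product of factors -/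
def M2L : Prop := ∀ (ε : ℝ) (J : ℕ), 0 < ε → ∃ C : ℝ, 0 < C ∧ ∀ (r : ℕ) [NeZero r] (T z q : ℕ) (M : ℝ),
  1 ≤ T → 1 ≤ M → (r : ℝ) * T ≤ M ^ 3 → ∀ b : List (Bool × ℕ), b.length ≤ J → (sz b : ℝ) ≤ M ^ 2 →
  ∀ s : DirichletCharacter ℂ r × ℤ → ℝ, (∀ p, (p.2 : ℝ) ≤ s p ∧ s p ≤ p.2 + 1) →
    ∑ p ∈ (univ : Finset (DirichletCharacter ℂ r)) ×ˢ Icc (-(T : ℤ)) T, KP z q b p.1 (s p) ^ 2 ≤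
      C * M ^ ε * (((r : ℝ) * T + sz b) * sz b)

/-- H2: the fourth moment of one factor -/
def M4F : Prop := ∀ ε : ℝ, 0 < ε → ∃ C : ℝ, 0 < C ∧ ∀ (q r : ℕ) [NeZero q] [NeZero r], r ∣ q →
  ∀ (T z : ℕ) (M : ℝ) (f : Bool × ℕ), 1 ≤ T → 1 ≤ M → (T : ℝ) ≤ M ^ 2 → (q : ℝ) ≤ M ^ 2 → (2 : ℝ) ^ f.2 ≤ M ^ 2 →
  (f.1 = false → ((2 : ℝ) ^ f.2) ^ 2 ≤ r * T) →
  ∀ s : DirichletCharacter ℂ r × ℤ → ℝ, (∀ p, (p.2 : ℝ) ≤ s p ∧ s p ≤ p.2 + 1) →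
    ∑ p ∈ ((univ : Finset (DirichletCharacter ℂ r)) ×ˢ Icc (-(T : ℤ)) T).filter
        (fun p => ¬ (p.1 = 1 ∧ |(p.2 : ℝ)| ≤ M ^ ε)), ‖KF f.1 z f.2 q p.1 (s p)‖ ^ 4 ≤
      C * M ^ ε * ((r : ℝ) * T * ((2 : ℝ) ^ f.2) ^ 2)

/-- H3: the number of large values of `Mt` -/
def LVH : Prop := ∀ ε : ℝ, 0 < ε → ∃ C : ℝ, 0 < C ∧ ∀ (q r : ℕ) [NeZero q] [NeZero r], r ∣ q → ∀ (T X : ℕ) (M V : ℝ),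
  1 ≤ T → 1 ≤ M → (r : ℝ) * T ≤ M → (q : ℝ) ≤ M ^ 2 → M ^ 2 ≤ X → (X : ℝ) ≤ M ^ 8 → M ^ (1 / 2 : ℝ) ≤ V → V ≤ M →
  ∀ s : DirichletCharacter ℂ r × ℤ → ℝ, (∀ p, (p.2 : ℝ) ≤ s p ∧ s p ≤ p.2 + 1) →
  ∀ W ⊆ (univ : Finset (DirichletCharacter ℂ r)) ×ˢ Icc (-(T : ℤ)) T,
    (∀ p ∈ W, ¬ (p.1 = 1 ∧ |(p.2 : ℝ)| ≤ M ^ ε)) →
    (∀ p ∈ W, V * M ^ ε ≤ ‖Mt X M q p.1 (s p)‖ * Real.sqrt M) →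
      (W.card : ℝ) ≤ C * M ^ ε * (((r : ℝ) * T * M ^ (2 / 5 : ℝ) +
        ((r : ℝ) * T) ^ (3 / 5 : ℝ) * M ^ (3 / 5 : ℝ)) / V ^ (4 / 5 : ℝ) + M / V)

end Pool.Agent.Helper25.WH
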