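import Pool.Agent.Helper25.WH.BoxC
import Pool.Agent.Helper25.WL.Pow
import Pool.Agent.Helper25.HM.K10

/-!
# W++: `LVH`, the number of large values of `Mt`

Adapted from `Helper5/WB/LVR.lean` (helper5). For `p ∈ W` there are a box `b` and `v` with `|v| ≤ M^(ε/16)` and
`KP z q b χ (s p - v) ≥ V M^(ε - ε/4)`; the cells with given `b` and given shift are counted by `box_card`.
-/

set_option autoImplicit false

namespace Pool.Agent.Helper25.WH

open ArithmeticFunction Finset MeasureTheory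
open Pool.Helper19.V4 Pool.Helper19.V5 Pool.Helper5.WB
open Pool.Agent.Helper25.HM (nt)
open Pool.Agent.Helper25.WL (PR FGr FSr LVr)
open Pool.Agent.Helper88.WS (wt)

private lemma int_bdH {F : ℝ → ℝ} (hF : ∀ v, 0 ≤ F v) {K : ℝ} (h : ∀ v, Real.exp (-(|v| / 14)) * F v ≤ K) :
    ∫ v : ℝ, Real.exp (-(|v| / 7)) * F v ≤ 28 * K := by
  have hI : Integrable (fun v : ℝ => Real.exp (-(1 / 14 * |v|))) :=
    Pool.Agent.Helper19.BD.int_exp_abs (1 / 14) (by norm_num)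
  have h1 : ∀ v, Real.exp (-(|v| / 7)) * F v ≤ K * Real.exp (-(1 / 14 * |v|)) := by
    intro v
    have e1 : Real.exp (-(|v| / 7)) = Real.exp (-(1 / 14 * |v|)) * Real.exp (-(|v| / 14)) := by
      rw [← Real.exp_add]
      congr 1
      ring
    rw [e1, mul_assoc, mul_comm K]
    exact mul_le_mul_of_nonneg_left (h v) (Real.exp_pos _).le
  have h2 := integral_mono_of_nonneg (μ := volume)
    (Filter.Eventually.of_forall fun v => mul_nonneg (Real.exp_pos (-(|v| / 7))).le (hF v)) (hI.const_mul K)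
    (Filter.Eventually.of_forall h1)
  rw [integral_const_mul, Pool.Agent.Helper25.HM.exp_abs_int (by norm_num)] at h2
  linarith

private lemma KF_trivH (b : Bool) (z e q : ℕ) {r : ℕ} (χ : DirichletCharacter ℂ r) (t : ℝ) :
    ‖KF b z e q χ t‖ ≤ 2 ^ (e + 1) := by
  have h := Pool.Agent.Helper25.WL.PR_triv (2 ^ (e + 1)) (c := fc b z e q) (B := 1) (fun n _ => norm_fc b z e q n) χ t
  rw [mul_one] at h
  unfold KF
  exact_mod_cast h

private lemma KP_trivH (z q : ℕ) (b : List (Bool × ℕ)) {r : ℕ} (χ : DirichletCharacter ℂ r) (t : ℝ) :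
    KP z q b χ t ≤ 2 ^ b.length * sz b := by
  induction b with
  | nil => simp [KP, sz]
  | cons f b ih =>
    rw [KP_cons, sz_cons, List.length_cons]
    calc ‖KF f.1 z f.2 q χ t‖ * KP z q b χ t ≤ 2 ^ (f.2 + 1) * (2 ^ b.length * sz b) :=
          mul_le_mul (KF_trivH _ _ _ _ χ t) ih (KP_nonneg z q b χ t) (by positivity)
      _ = 2 ^ (b.length + 1) * ((2 ^ f.2 * sz b : ℕ) : ℝ) := by
          push_cast
          ring

private lemma sz_geH {f : Bool × ℕ} {b : List (Bool × ℕ)} (h : f ∈ b) : (2 : ℝ) ^ f.2 ≤ sz b := by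
  induction b with
  | nil => simp at h
  | cons f' b ih =>
    rw [sz_cons]
    push_cast
    have h1 := sz_one b
    have h2 : (1 : ℝ) ≤ 2 ^ f'.2 := one_le_pow₀ (by norm_num)
    rcases List.mem_cons.1 h with rfl | h3
    · nlinarith
    · have := ih h3
      nlinarith

/-- one point -/
private lemma pointH {J : ℕ} {M V ε ε1 CB R : ℝ} (hM : 1 ≤ M) (hV : 1 ≤ V) (hε1 : 0 < ε1) (hε11 : ε1 ≤ 1)
    (he : 2 * ε1 ≤ ε) (hCB : 0 < CB) (hM1 : 28 * CB ^ 2 + CB < M ^ ε1)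
    (hR : 14 * Real.log (4 ^ J * M ^ (2 : ℕ)) ≤ R) {z q : ℕ} {𝓑 : Finset (List (Bool × ℕ))} (hcard : (𝓑.card : ℝ) ≤ CB * M ^ ε1)
    (hb : ∀ b ∈ 𝓑, b.length ≤ 2 * J ∧ (sz b : ℝ) ≤ M ^ (1 + ε1)) {r : ℕ} (χ : DirichletCharacter ℂ r) (t : ℝ)
    (h : V * M ^ ε ≤ CB * (∑ b ∈ 𝓑, ∫ v : ℝ, Real.exp (-(|v| / 7)) * KP z q b χ (t - v)) + CB / M) :
    ∃ b ∈ 𝓑, ∃ v : ℝ, |v| ≤ R ∧ V * M ^ (ε - 2 * ε1) ≤ KP z q b χ (t - v) := by
  have hM0 : 0 < M := by linarith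
  obtain ⟨K, hK⟩ : ∃ K : ℝ, K = V * M ^ (ε - 2 * ε1) := ⟨_, rfl⟩
  have hK1 : 1 ≤ K := by
    rw [hK]
    exact one_le_mul_of_one_le_of_one_le hV (Real.one_le_rpow hM (by linarith))
  have hK0 : 0 < K := by linarith
  -- step 1
  have h1 : ∃ b ∈ 𝓑, ∃ v : ℝ, K < Real.exp (-(|v| / 14)) * KP z q b χ (t - v) := by
    by_contra hcon
    push Not at hcon
    have h2 : ∑ b ∈ 𝓑, ∫ v : ℝ, Real.exp (-(|v| / 7)) * KP z q b χ (t - v) ≤ 𝓑.card * (28 * K) := by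
      rw [← nsmul_eq_mul]
      exact sum_le_card_nsmul _ _ _ fun b hb' => int_bdH (fun v => KP_nonneg z q b χ (t - v)) (hcon b hb')
    have h3 : CB * ∑ b ∈ 𝓑, ∫ v : ℝ, Real.exp (-(|v| / 7)) * KP z q b χ (t - v) ≤ CB * ((CB * M ^ ε1) * (28 * K)) := by
      apply mul_le_mul_of_nonneg_left _ hCB.le
      exact h2.trans (mul_le_mul_of_nonneg_right hcard (by positivity))
    have h4 : CB / M ≤ CB := by
      rw [div_le_iff₀ hM0]
      nlinarith
    have h5 : V * M ^ ε = M ^ ε1 * M ^ ε1 * K := by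
      rw [hK, mul_left_comm, ← Real.rpow_add hM0, ← Real.rpow_add hM0]
      congr 2
      ring
    have h6 : 1 ≤ M ^ ε1 := Real.one_le_rpow hM hε1.le
    have h7 : CB ≤ CB * (M ^ ε1 * K) := by
      have : 1 ≤ M ^ ε1 * K := one_le_mul_of_one_le_of_one_le h6 hK1
      nlinarith
    have h8 : (28 * CB ^ 2 + CB) * (M ^ ε1 * K) < M ^ ε1 * (M ^ ε1 * K) :=
      mul_lt_mul_of_pos_right hM1 (by positivity)
    have h9 : V * M ^ ε ≤ (28 * CB ^ 2 + CB) * (M ^ ε1 * K) := by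
      calc V * M ^ ε ≤ CB * ((CB * M ^ ε1) * (28 * K)) + CB * (M ^ ε1 * K) := by linarith
        _ = _ := by ring
    rw [h5] at h9
    have h10 : M ^ ε1 * M ^ ε1 * K = M ^ ε1 * (M ^ ε1 * K) := by ring
    linarith
  obtain ⟨b, hb', v, hv⟩ := h1
  obtain ⟨hlen, hsz⟩ := hb b hb'
  have hE0 : 0 < Real.exp (-(|v| / 14)) := Real.exp_pos _
  have hE1 : Real.exp (-(|v| / 14)) ≤ 1 := by
    rw [Real.exp_le_one_iff]
    have := abs_nonneg v
    linarith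
  have hKP0 := KP_nonneg z q b χ (t - v)
  have hKK : K < KP z q b χ (t - v) := by nlinarith
  -- the size of v
  have hvR : |v| ≤ R := by
    have h2 := KP_trivH z q b χ (t - v)
    have h3 : (2 : ℝ) ^ b.length ≤ 4 ^ J := by
      calc (2 : ℝ) ^ b.length ≤ 2 ^ (2 * J) := pow_le_pow_right₀ (by norm_num) hlen
        _ = 4 ^ J := by
            rw [pow_mul]
            norm_num
    have h4 : (sz b : ℝ) ≤ M ^ (2 : ℕ) := by
      refine hsz.trans ?_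
      rw [← Real.rpow_natCast]
      apply Real.rpow_le_rpow_of_exponent_le hM
      push_cast
      linarith
    have h5 : KP z q b χ (t - v) ≤ 4 ^ J * M ^ (2 : ℕ) :=
      h2.trans (mul_le_mul h3 h4 (by positivity) (by positivity))
    have h6 : 1 < Real.exp (-(|v| / 14)) * (4 ^ J * M ^ (2 : ℕ)) :=
      lt_of_le_of_lt hK1 (hv.trans_le (mul_le_mul_of_nonneg_left h5 hE0.le))
    have h7 : Real.exp (|v| / 14) ≤ 4 ^ J * M ^ (2 : ℕ) := by
      have e1 : Real.exp (|v| / 14) * Real.exp (-(|v| / 14)) = 1 := by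
        rw [← Real.exp_add]
        simp
      have e2 : 0 < Real.exp (|v| / 14) := Real.exp_pos _
      nlinarith
    have h8 : |v| / 14 ≤ Real.log (4 ^ J * M ^ (2 : ℕ)) := by
      rw [Real.le_log_iff_exp_le (by positivity)]
      exact h7
    linarith
  exact ⟨b, hb', v, hvR, by rw [← hK]; exact hKK.le⟩

/-- the count over finitely many types -/
private lemma countH {ι α : Type*} [DecidableEq α] (W : Finset α) (I : Finset ι) (P : ι → α → Prop) [∀ i, DecidablePred (P i)]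
    (h : ∀ p ∈ W, ∃ i ∈ I, P i p) {K : ℝ} (hK : ∀ i ∈ I, ((W.filter (P i)).card : ℝ) ≤ K) : (W.card : ℝ) ≤ I.card * K := by
  have h1 : W ⊆ I.biUnion fun i => W.filter (P i) := by
    intro p hp
    obtain ⟨i, hi, hp'⟩ := h p hp
    rw [mem_biUnion]
    exact ⟨i, hi, mem_filter.2 ⟨hp, hp'⟩⟩
  have h2 : (W.card : ℝ) ≤ ∑ i ∈ I, ((W.filter (P i)).card : ℝ) := by
    exact_mod_cast (card_le_card h1).trans card_biUnion_le
  refine h2.trans ?_
  rw [← nsmul_eq_mul]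
  exact sum_le_card_nsmul _ _ _ hK

private lemma largeH {ε : ℝ} (hε : 0 < ε) {J : ℕ} (hJ : 1 ≤ J) (CB : ℝ) :
    ∃ M0 : ℝ, 5 ≤ M0 ∧ ∀ M : ℝ, M0 ≤ M → 4 ≤ M ^ (ε / 2) ∧ 28 * CB ^ 2 + CB < M ^ (ε / 8) ∧
      14 * Real.log (4 ^ J * M ^ (2 : ℕ)) ≤ M ^ (ε / 16) ∧ 5 < M ^ (7 * ε / 8) ∧ 2 ≤ M ^ (ε / (8 * J)) := by
  have hJ0 : (0 : ℝ) < J := by exact_mod_cast hJ
  obtain ⟨Y, hY⟩ : ∃ Y : ℝ, Y = 14 * (J * Real.log 4) + 896 / ε := ⟨_, rfl⟩
  have t1 := (tendsto_rpow_atTop (by positivity : 0 < ε / 2)).eventually_ge_atTop 4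
  have t2 := (tendsto_rpow_atTop (by positivity : 0 < ε / 8)).eventually_gt_atTop (28 * CB ^ 2 + CB)
  have t3 := (tendsto_rpow_atTop (by positivity : 0 < ε / 32)).eventually_ge_atTop (max 1 Y)
  have t4 := (tendsto_rpow_atTop (by positivity : 0 < 7 * ε / 8)).eventually_gt_atTop 5
  have t5 := (tendsto_rpow_atTop (by positivity : 0 < ε / (8 * J))).eventually_ge_atTop 2
  have t6 := Filter.eventually_ge_atTop (5 : ℝ)
  obtain ⟨M0, hM0⟩ := Filter.eventually_atTop.1 (t1.and (t2.and (t3.and (t4.and (t5.and t6)))))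
  refine ⟨M0, (hM0 M0 le_rfl).2.2.2.2.2, fun M hM => ?_⟩
  obtain ⟨a1, a2, a3, a4, a5, a6⟩ := hM0 M hM
  refine ⟨a1, a2, ?_, a4, a5⟩
  have hMpos : 0 < M := by linarith
  have b1 : 1 ≤ M ^ (ε / 32) := (le_max_left _ _).trans a3
  have b2 : Y ≤ M ^ (ε / 32) := (le_max_right _ _).trans a3
  have b3 : Real.log M ≤ M ^ (ε / 32) / (ε / 32) := Real.log_le_rpow_div hMpos.le (by positivity)
  have b4 : Real.log (4 ^ J * M ^ (2 : ℕ)) = J * Real.log 4 + 2 * Real.log M := by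
    rw [Real.log_mul (by positivity) (by positivity), Real.log_pow, Real.log_pow]
    push_cast
    ring
  have b5 : M ^ (ε / 16) = M ^ (ε / 32) * M ^ (ε / 32) := by
    rw [← Real.rpow_add hMpos]
    congr 1
    ring
  have b6 : M ^ (ε / 32) / (ε / 32) = 32 / ε * M ^ (ε / 32) := by
    field_simp
  have b7 : 0 ≤ J * Real.log 4 := by
    have : 0 ≤ Real.log 4 := Real.log_nonneg (by norm_num)
    positivity
  rw [b6] at b3
  rw [b4, b5]
  calc 14 * (J * Real.log 4 + 2 * Real.log M) ≤ 14 * (J * Real.log 4) * M ^ (ε / 32) + 896 / ε * M ^ (ε / 32) := by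
        have c1 : 14 * (J * Real.log 4) ≤ 14 * (J * Real.log 4) * M ^ (ε / 32) := by nlinarith
        have c2 : 28 * Real.log M ≤ 896 / ε * M ^ (ε / 32) := by
          calc 28 * Real.log M ≤ 28 * (32 / ε * M ^ (ε / 32)) := by linarith
            _ = 896 / ε * M ^ (ε / 32) := by ring
        linarith
    _ = Y * M ^ (ε / 32) := by rw [hY]; ring
    _ ≤ M ^ (ε / 32) * M ^ (ε / 32) := mul_le_mul_of_nonneg_right b2 (by positivity)

private lemma card_cellsH {r : ℕ} [NeZero r] {T : ℕ} (hT : 1 ≤ T) {W : Finset (DirichletCharacter ℂ r × ℤ)}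
    (hW : W ⊆ (univ : Finset (DirichletCharacter ℂ r)) ×ˢ Icc (-(T : ℤ)) T) : (W.card : ℝ) ≤ 3 * ((r : ℝ) * T) := by
  have h1 := card_le_card hW
  rw [card_product, Int.card_Icc, card_univ] at h1
  have h2 : Fintype.card (DirichletCharacter ℂ r) ≤ r := by
    rw [← Nat.card_eq_fintype_card, DirichletCharacter.card_eq_totient_of_hasEnoughRootsOfUnity]
    exact Nat.totient_le r
  have h3 : ((T : ℤ) + 1 - -(T : ℤ)).toNat = 2 * T + 1 := by omega
  rw [h3] at h1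
  have h4 : W.card ≤ r * (2 * T + 1) := h1.trans (Nat.mul_le_mul_right _ h2)
  have h5 : (W.card : ℝ) ≤ r * (2 * T + 1) := by exact_mod_cast h4
  have hT1 : (1 : ℝ) ≤ T := by exact_mod_cast hT
  have hr : (0 : ℝ) ≤ r := Nat.cast_nonneg r
  nlinarith


theorem lvh (hB : BOX) (h2 : M2L) (h4 : M4F) : LVH := by
  classical
  intro ε0 hε0
  obtain ⟨ε, hε⟩ : ∃ ε : ℝ, ε = min ε0 (1 / 4) := ⟨_, rfl⟩
  have hεpos : 0 < ε := by rw [hε]; positivity
  have hε4 : ε ≤ 1 / 4 := by rw [hε]; exact min_le_right _ _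
  have hεε : ε ≤ ε0 := by rw [hε]; exact min_le_left _ _
  obtain ⟨J, hJ⟩ := exists_nat_ge (32 / ε)
  have hJpos : (1 : ℝ) ≤ J := by
    refine le_trans ?_ hJ
    rw [le_div_iff₀ hεpos]
    linarith
  have hJ1 : 1 ≤ J := by exact_mod_cast hJpos
  have hJ0 : (0 : ℝ) < J := by linarith
  obtain ⟨CB, hCB, hB⟩ := hB (ε / 8) J (by positivity) hJ1
  obtain ⟨C2, hC2, h2⟩ := h2 (ε / 16) (2 * J) (by positivity)
  obtain ⟨C4, hC4, h4⟩ := h4 (ε / 16) (by positivity)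
  obtain ⟨M0, hM0, hM⟩ := largeH hεpos hJ1 CB
  obtain ⟨K0, hK0d⟩ : ∃ K0 : ℝ, K0 = 1 + 2 * C2 + C4 := ⟨_, rfl⟩
  have hK0 : 1 ≤ K0 := by rw [hK0d]; linarith
  obtain ⟨C, hC⟩ : ∃ C : ℝ, C = 3 * M0 + 3 + 45 * CB * K0 := ⟨_, rfl⟩
  have hCC : 0 < 45 * CB * K0 := by positivity
  have hC1 : 3 * M0 ≤ C := by rw [hC]; linarith
  have hC2' : 3 ≤ C := by rw [hC]; linarith
  have hC3 : 45 * CB * K0 ≤ C := by rw [hC]; linarith
  have hC0 : 0 < C := by linarith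
  refine ⟨C, hC0, fun q r _ _ hrq T X M V hT hM1 hrT hq hX1 hX2 hV1 hV2 s hs W hW hex hlarge => ?_⟩
  have hMpos : 0 < M := by linarith
  have hr1 : (1 : ℝ) ≤ r := by exact_mod_cast Nat.one_le_iff_ne_zero.2 (NeZero.ne r)
  have hT1 : (1 : ℝ) ≤ T := by exact_mod_cast hT
  have hrT1 : 1 ≤ (r : ℝ) * T := one_le_mul_of_one_le_of_one_le hr1 hT1
  have hrT0 : 0 < (r : ℝ) * T := by linarith
  have hVone : 1 ≤ V := le_trans (Real.one_le_rpow hM1 (by norm_num)) hV1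
  have hV0 : 0 < V := by linarith
  obtain ⟨E, hE⟩ : ∃ E : ℝ → ℝ → ℝ, E = fun A V => (A * M ^ (2 / 5 : ℝ) + A ^ (3 / 5 : ℝ) * M ^ (3 / 5 : ℝ)) /
    V ^ (4 / 5 : ℝ) + M / V := ⟨_, rfl⟩
  have hgoalE : ((r : ℝ) * T * M ^ (2 / 5 : ℝ) + ((r : ℝ) * T) ^ (3 / 5 : ℝ) * M ^ (3 / 5 : ℝ)) / V ^ (4 / 5 : ℝ) + M / V =
    E ((r : ℝ) * T) V := by rw [hE]
  rw [hgoalE]
  have hE1 : 1 ≤ E ((r : ℝ) * T) V := by
    have e1 : 1 ≤ M / V := by
      rw [one_le_div hV0]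
      exact hV2
    have e2 : 0 ≤ ((r : ℝ) * T * M ^ (2 / 5 : ℝ) + ((r : ℝ) * T) ^ (3 / 5 : ℝ) * M ^ (3 / 5 : ℝ)) / V ^ (4 / 5 : ℝ) := by
      positivity
    rw [hE]
    simp only
    linarith
  have hMe : M ^ ε ≤ M ^ ε0 := Real.rpow_le_rpow_of_exponent_le hM1 hεε
  have hMe1 : 1 ≤ M ^ ε := Real.one_le_rpow hM1 hεpos.le
  have htriv := card_cellsH hT hW
  -- reduction to ε
  have hfin : (W.card : ℝ) ≤ C * M ^ ε * E ((r : ℝ) * T) V → (W.card : ℝ) ≤ C * M ^ ε0 * E ((r : ℝ) * T) V :=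
    fun h => h.trans (by gcongr)
  apply hfin
  have hex' : ∀ p ∈ W, ¬ (p.1 = 1 ∧ |(p.2 : ℝ)| ≤ M ^ ε) := fun p hp h => hex p hp ⟨h.1, h.2.trans hMe⟩
  have hlarge' : ∀ p ∈ W, V * M ^ ε ≤ ‖Mt X M q p.1 (s p)‖ * Real.sqrt M := fun p hp =>
    (mul_le_mul_of_nonneg_left hMe hV0.le).trans (hlarge p hp)
  rcases lt_or_ge M M0 with hsm | hMM
  · calc (W.card : ℝ) ≤ 3 * M0 := by linarith
      _ ≤ C * 1 * 1 := by linarith
      _ ≤ C * M ^ ε * E ((r : ℝ) * T) V := by gcongr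
  rcases lt_or_ge ((r : ℝ) * T) (M ^ ε) with hsm | hrTe
  · calc (W.card : ℝ) ≤ 3 * M ^ ε := by linarith
      _ ≤ C * M ^ ε * 1 := by
          rw [mul_one]
          exact mul_le_mul_of_nonneg_right hC2' (by positivity)
      _ ≤ C * M ^ ε * E ((r : ℝ) * T) V := by gcongr
  obtain ⟨m1, m2, m3, m4, m5⟩ := hM M hMM
  -- the parameter z
  obtain ⟨z, hz⟩ : ∃ z : ℕ, z = ⌈M ^ (8 / J : ℝ)⌉₊ := ⟨_, rfl⟩
  have hz1 : M ^ (8 / J : ℝ) ≤ z := by rw [hz]; exact Nat.le_ceil _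
  have hz2 : (z : ℝ) ≤ 2 * M ^ (8 / J : ℝ) := by
    have e1 : 1 ≤ M ^ (8 / J : ℝ) := Real.one_le_rpow hM1 (by positivity)
    have e2 := (Nat.ceil_lt_add_one (by positivity : 0 ≤ M ^ (8 / J : ℝ))).le
    rw [hz]
    linarith
  have hXz : X ≤ z ^ J := by
    have e1 : (X : ℝ) ≤ (z : ℝ) ^ J := by
      calc (X : ℝ) ≤ M ^ 8 := hX2
        _ = (M ^ (8 / J : ℝ)) ^ J := by
            rw [← Real.rpow_natCast (M ^ (8 / J : ℝ)) J, ← Real.rpow_mul hMpos.le, div_mul_cancel₀ _ hJ0.ne']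
            exact_mod_cast rfl
        _ ≤ (z : ℝ) ^ J := pow_le_pow_left₀ (by positivity) hz1 J
    exact_mod_cast e1
  have hzz : (z : ℝ) ^ 2 ≤ r * T := by
    have e1 : (z : ℝ) ^ 2 ≤ (2 * M ^ (8 / J : ℝ)) ^ 2 := pow_le_pow_left₀ (by positivity) hz2 2
    have e2 : (2 * M ^ (8 / J : ℝ)) ^ 2 = 4 * M ^ (16 / J : ℝ) := by
      rw [mul_pow, ← Real.rpow_natCast (M ^ (8 / J : ℝ)) 2, ← Real.rpow_mul hMpos.le]
      norm_num
      congr 1
      ring
    have e3 : (16 / J : ℝ) ≤ ε / 2 := by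
      rw [div_le_iff₀ hJ0]
      rw [div_le_iff₀ hεpos] at hJ
      linarith
    have e4 : M ^ (16 / J : ℝ) ≤ M ^ (ε / 2) := Real.rpow_le_rpow_of_exponent_le hM1 e3
    have e5 : M ^ ε = M ^ (ε / 2) * M ^ (ε / 2) := by
      rw [← Real.rpow_add hMpos]
      congr 1
      ring
    have e6 : 0 < M ^ (ε / 2) := by positivity
    calc (z : ℝ) ^ 2 ≤ 4 * M ^ (16 / J : ℝ) := e1.trans (le_of_eq e2)
      _ ≤ 4 * M ^ (ε / 2) := mul_le_mul_of_nonneg_left e4 (by norm_num)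
      _ ≤ M ^ (ε / 2) * M ^ (ε / 2) := mul_le_mul_of_nonneg_right m1 e6.le
      _ = M ^ ε := e5.symm
      _ ≤ r * T := hrTe
  obtain ⟨𝓑, hcard, hb, hbox⟩ := hB M X z q hM1 hX1 hX2 hXz
  -- shifts
  obtain ⟨R, hR⟩ : ∃ R : ℝ, R = M ^ (ε / 16) := ⟨_, rfl⟩
  have hR1 : 1 ≤ R := by rw [hR]; exact Real.one_le_rpow hM1 (by positivity)
  obtain ⟨H, hH⟩ : ∃ H : ℕ, H = ⌈R⌉₊ + 2 := ⟨_, rfl⟩
  have hH1 : R + 2 ≤ H := by
    rw [hH]
    push_cast
    have := Nat.le_ceil R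
    linarith
  have hH2 : (H : ℝ) ≤ R + 3 := by
    rw [hH]
    push_cast
    have := (Nat.ceil_lt_add_one (by linarith : 0 ≤ R)).le
    linarith
  have hR8 : R ≤ M ^ (ε / 8) := by
    rw [hR]
    exact Real.rpow_le_rpow_of_exponent_le hM1 (by linarith)
  have hM8 : M ^ (ε / 8) ≤ M := by
    calc M ^ (ε / 8) ≤ M ^ (1 : ℝ) := Real.rpow_le_rpow_of_exponent_le hM1 (by linarith)
      _ = M := Real.rpow_one M
  have hTM : (T : ℝ) ≤ M := (le_mul_of_one_le_left (by positivity) hr1).trans hrT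
  obtain ⟨G, hG⟩ : ∃ G : ℝ, G = M ^ (ε / 8) := ⟨_, rfl⟩
  have hG1 : 1 ≤ G := by rw [hG]; exact Real.one_le_rpow hM1 (by positivity)
  obtain ⟨K, hK⟩ : ∃ K : ℝ, K = K0 * M ^ (ε / 16) := ⟨_, rfl⟩
  have hR0 : 1 ≤ M ^ (ε / 16) := Real.one_le_rpow hM1 (by positivity)
  have hK1 : 1 ≤ K := by rw [hK]; exact one_le_mul_of_one_le_of_one_le hK0 hR0
  obtain ⟨V', hV'⟩ : ∃ V' : ℝ, V' = V * M ^ (ε - 2 * (ε / 8)) := ⟨_, rfl⟩
  have hVV : V ≤ V' := by
    rw [hV']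
    exact le_mul_of_one_le_right hV0.le (Real.one_le_rpow hM1 (by linarith))
  have hV'0 : 0 < V' := by linarith
  have hM5 : 5 ≤ M := by linarith
  obtain ⟨T', hT'⟩ : ∃ T' : ℕ, T' = T + H := ⟨_, rfl⟩
  have hT'R : (T' : ℝ) = T + H := by rw [hT']; push_cast; rfl
  have hT'1 : 1 ≤ T' := by omega
  have hT'1r : (1 : ℝ) ≤ T' := by exact_mod_cast hT'1
  have hT'M : (T' : ℝ) ≤ 5 * M := by
    rw [hT'R]
    linarith
  have hrM : (r : ℝ) ≤ M := (le_mul_of_one_le_right (by positivity) hT1).trans hrT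
  have hrT'M : (r : ℝ) * T' ≤ M ^ 3 := by
    calc (r : ℝ) * T' ≤ M * (5 * M) := by gcongr
      _ = 5 * (M * M) := by ring
      _ ≤ M * (M * M) := mul_le_mul_of_nonneg_right hM5 (by positivity)
      _ = M ^ 3 := by ring
  have hT'M2 : (T' : ℝ) ≤ M ^ 2 := by
    refine hT'M.trans ?_
    rw [pow_two]
    exact mul_le_mul_of_nonneg_right hM5 hMpos.le
  -- the types
  let P : List (Bool × ℕ) × ℤ → DirichletCharacter ℂ r × ℤ → Prop := fun i p => ∃ u : ℝ,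
    ((p.2 + i.2 : ℤ) : ℝ) ≤ u ∧ u ≤ ((p.2 + i.2 : ℤ) : ℝ) + 1 ∧ V' ≤ KP z q i.1 p.1 u
  have hcov : ∀ p ∈ W, ∃ i ∈ 𝓑 ×ˢ Icc (-(H : ℤ)) H, P i p := by
    intro p hp
    obtain ⟨b, hb1, v, hv, hKP⟩ := pointH (J := J) (M := M) (V := V) (ε := ε) (ε1 := ε / 8) (CB := CB)
      (R := R) hM1 hVone (by positivity) (by linarith) (by linarith) hCB m2 (by rw [hR]; exact m3)
      hcard (fun b hb' => ⟨(hb b hb').1, (hb b hb').2.1⟩) p.1 (s p) ((hlarge' p hp).trans (hbox r p.1 (s p)))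
    obtain ⟨hs1, hs2⟩ := hs p
    rw [abs_le] at hv
    refine ⟨(b, ⌊s p - v⌋ - p.2), ?_, s p - v, ?_, ?_, ?_⟩
    · rw [mem_product, mem_Icc]
      refine ⟨hb1, ?_, ?_⟩
      · have e1 := Int.lt_floor_add_one (s p - v)
        have e2 : (-(H : ℝ)) ≤ ((⌊s p - v⌋ - p.2 : ℤ) : ℝ) := by
          push_cast
          linarith
        exact_mod_cast e2
      · have e1 := Int.floor_le (s p - v)
        have e2 : ((⌊s p - v⌋ - p.2 : ℤ) : ℝ) ≤ (H : ℝ) := by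
          push_cast
          linarith
        exact_mod_cast e2
    · have e1 := Int.floor_le (s p - v)
      simp only [add_sub_cancel]
      exact e1
    · have e1 := Int.lt_floor_add_one (s p - v)
      simp only [add_sub_cancel]
      exact e1.le
    · rw [hV']
      exact hKP
  -- the class bound
  have hclass : ∀ i ∈ 𝓑 ×ˢ Icc (-(H : ℤ)) H, ((W.filter (P i)).card : ℝ) ≤ K * G * E ((r : ℝ) * T') V := by
    intro i hi
    rw [mem_product, mem_Icc] at hi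
    obtain ⟨hb2, hb3, hb4⟩ := hb i.1 hi.1
    have hinj : Function.Injective (fun p : DirichletCharacter ℂ r × ℤ => (p.1, p.2 + i.2)) := by
      intro p p' hpp
      have hpp' : ((p.1, p.2 + i.2) : DirichletCharacter ℂ r × ℤ) = (p'.1, p'.2 + i.2) := hpp
      rw [Prod.mk.injEq] at hpp'
      exact Prod.ext hpp'.1 (by linarith [hpp'.2])
    rw [← card_image_of_injective (W.filter (P i)) hinj]
    obtain ⟨U, hU⟩ : ∃ U, U = (W.filter (P i)).image (fun p : DirichletCharacter ℂ r × ℤ => (p.1, p.2 + i.2)) := ⟨_, rfl⟩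
    rw [← hU]
    have hmem : ∀ p ∈ U, ∃ p0 ∈ W, P i p0 ∧ p.1 = p0.1 ∧ p.2 = p0.2 + i.2 := by
      intro p hp
      rw [hU] at hp
      obtain ⟨p0, hp0, rfl⟩ := mem_image.1 hp
      obtain ⟨h1, h2⟩ := mem_filter.1 hp0
      exact ⟨p0, h1, h2, rfl, rfl⟩
    -- the points
    set Q : DirichletCharacter ℂ r × ℤ → Prop := fun p => ∃ u : ℝ, (p.2 : ℝ) ≤ u ∧ u ≤ p.2 + 1 ∧
      V' ≤ KP z q i.1 p.1 u with hQ
    obtain ⟨σ, hσ⟩ : ∃ σ : DirichletCharacter ℂ r × ℤ → ℝ, σ = fun p => if h : Q p then h.choose else (p.2 : ℝ) := ⟨_, rfl⟩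
    have hσ1 : ∀ p, (p.2 : ℝ) ≤ σ p ∧ σ p ≤ p.2 + 1 := by
      intro p
      rw [hσ]
      by_cases h : Q p
      · simp only [dif_pos h]
        exact ⟨h.choose_spec.1, h.choose_spec.2.1⟩
      · simp only [dif_neg h]
        constructor <;> linarith
    have hσ2 : ∀ p ∈ U, V' ≤ KP z q i.1 p.1 (σ p) := by
      intro p hp
      obtain ⟨p0, hp0, hP, h1, h2⟩ := hmem p hp
      obtain ⟨u, hu1, hu2, hu3⟩ := hP
      have h : Q p := ⟨u, by rw [h2]; exact hu1, by rw [h2]; exact hu2, by rw [h1]; exact hu3⟩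
      rw [hσ]
      simp only [dif_pos h]
      exact h.choose_spec.2.2
    have hUc : U ⊆ (univ : Finset (DirichletCharacter ℂ r)) ×ˢ Icc (-(T' : ℤ)) T' := by
      intro p hp
      obtain ⟨p0, hp0, -, h1, h2⟩ := hmem p hp
      have h3 := hW hp0
      rw [mem_product, mem_Icc] at h3 ⊢
      refine ⟨mem_univ _, ?_, ?_⟩
      · rw [h2, hT']
        push_cast
        linarith [h3.2.1, hi.2.1]
      · rw [h2, hT']
        push_cast
        linarith [h3.2.2, hi.2.2]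
    have hUe : ∀ p ∈ U, ¬ (p.1 = 1 ∧ |(p.2 : ℝ)| ≤ M ^ (ε / 16)) := by
      intro p hp hcon
      obtain ⟨p0, hp0, -, h1, h2⟩ := hmem p hp
      apply hex' p0 hp0
      refine ⟨by rw [← h1]; exact hcon.1, ?_⟩
      have e1 : (p0.2 : ℝ) = p.2 - i.2 := by
        rw [h2]
        push_cast
        ring
      have e2 : |(i.2 : ℝ)| ≤ H := by
        rw [abs_le]
        exact ⟨by exact_mod_cast hi.2.1, by exact_mod_cast hi.2.2⟩
      have e3 : |(p0.2 : ℝ)| ≤ |(p.2 : ℝ)| + |(i.2 : ℝ)| := by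
        rw [e1]
        exact abs_sub _ _
      have e5 : 1 ≤ M ^ (ε / 8) := Real.one_le_rpow hM1 (by positivity)
      have e6 : M ^ ε = M ^ (ε / 8) * M ^ (7 * ε / 8) := by
        rw [← Real.rpow_add hMpos]
        congr 1
        ring
      have e7 : |(p.2 : ℝ)| ≤ M ^ (ε / 16) := hcon.2
      have e9 : M ^ (ε / 16) ≤ M ^ (ε / 8) := Real.rpow_le_rpow_of_exponent_le hM1 (by linarith)
      have e8 : 5 * M ^ (ε / 8) ≤ M ^ ε := by
        rw [e6, mul_comm]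
        exact mul_le_mul_of_nonneg_left m4.le (by positivity)
      linarith
    have hszb : (sz i.1 : ℝ) ≤ M * G := by
      refine hb3.trans (le_of_eq ?_)
      rw [Real.rpow_add hMpos, Real.rpow_one, hG]
    have hszb2 : (sz i.1 : ℝ) ≤ M ^ 2 := by
      refine hb3.trans ?_
      rw [← Real.rpow_natCast M 2]
      apply Real.rpow_le_rpow_of_exponent_le hM1
      push_cast
      linarith
    have hA' : 1 ≤ (r : ℝ) * T' := one_le_mul_of_one_le_of_one_le hr1 hT'1r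
    have hbc := box_card (q := q) (r := r) (T := T') (z := z) (M := M) (G := G) (K := K) (V := V') hA' hM1 hG1 hK1
      (hV1.trans hVV) (b := i.1) hszb σ U (fun c hc1 hc2 => by
        have h5 := h2 r T' z q M hT'1 hM1 hrT'M c (hc1.trans hb2) (hc2.trans hszb2) σ hσ1
        have h6 : ∑ p ∈ U, KP z q c p.1 (σ p) ^ 2 ≤
            ∑ p ∈ (univ : Finset (DirichletCharacter ℂ r)) ×ˢ Icc (-(T' : ℤ)) T', KP z q c p.1 (σ p) ^ 2 :=
          sum_le_sum_of_subset_of_nonneg hUc fun _ _ _ => sq_nonneg _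
        refine h6.trans (h5.trans ?_)
        have hc0 := sz_one c
        apply mul_le_mul_of_nonneg_right _ (by positivity)
        rw [hK, hK0d]
        have e1 : 0 < M ^ (ε / 16) := lt_of_lt_of_le one_pos hR0
        have e2 : C2 ≤ (1 + 2 * C2 + C4) / 2 := by linarith only [hC4]
        calc C2 * M ^ (ε / 16) ≤ (1 + 2 * C2 + C4) / 2 * M ^ (ε / 16) := mul_le_mul_of_nonneg_right e2 e1.le
          _ = (1 + 2 * C2 + C4) * M ^ (ε / 16) / 2 := by ring) (fun f hf => by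
        have h2e : (2 : ℝ) ^ f.2 ≤ M ^ 2 := (sz_geH hf).trans hszb2
        have h5 := h4 q r hrq T' z M f hT'1 hM1 hT'M2 hq h2e (fun hff => by
          have e1 := hb4 f hf hff
          have e2 : (2 : ℝ) ^ f.2 ≤ z := by exact_mod_cast e1
          have e3 : ((2 : ℝ) ^ f.2) ^ 2 ≤ (z : ℝ) ^ 2 := pow_le_pow_left₀ (by positivity) e2 2
          have e4 : (r : ℝ) * T ≤ r * T' := by
            rw [hT'R]
            exact mul_le_mul_of_nonneg_left (le_add_of_nonneg_right (Nat.cast_nonneg H)) (Nat.cast_nonneg r)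
          exact e3.trans (hzz.trans e4)) σ hσ1
        have h6 : ∑ p ∈ U, ‖KF f.1 z f.2 q p.1 (σ p)‖ ^ 4 ≤
            ∑ p ∈ ((univ : Finset (DirichletCharacter ℂ r)) ×ˢ Icc (-(T' : ℤ)) T').filter
              (fun p => ¬ (p.1 = 1 ∧ |(p.2 : ℝ)| ≤ M ^ (ε / 16))), ‖KF f.1 z f.2 q p.1 (σ p)‖ ^ 4 := by
          apply sum_le_sum_of_subset_of_nonneg _ fun _ _ _ => by positivity
          intro p hp
          exact mem_filter.2 ⟨hUc hp, hUe p hp⟩
        refine h6.trans (h5.trans ?_)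
        apply mul_le_mul_of_nonneg_right _ (by positivity)
        rw [hK, hK0d]
        have e1 : 0 < M ^ (ε / 16) := lt_of_lt_of_le one_pos hR0
        have e2 : C4 ≤ 1 + 2 * C2 + C4 := by linarith only [hC2]
        exact mul_le_mul_of_nonneg_right e2 e1.le) hσ2
    refine hbc.trans ?_
    apply mul_le_mul_of_nonneg_left _ (by positivity)
    rw [hE]
    simp only
    gcongr
  have hcount := countH W (𝓑 ×ˢ Icc (-(H : ℤ)) H) P hcov hclass
  -- the arithmetic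
  have hIcard : (((𝓑 ×ˢ Icc (-(H : ℤ)) H).card : ℕ) : ℝ) ≤ (CB * M ^ (ε / 8)) * (9 * M ^ (ε / 16)) := by
    rw [card_product, Int.card_Icc]
    have e0 : ((H : ℤ) + 1 - -(H : ℤ)).toNat = 2 * H + 1 := by omega
    rw [e0]
    push_cast
    apply mul_le_mul hcard _ (by positivity) (by positivity)
    rw [← hR]
    linarith
  have hEE : E ((r : ℝ) * T') V ≤ 5 * M ^ (ε / 16) * E ((r : ℝ) * T) V := by
    obtain ⟨L, hL⟩ : ∃ L : ℝ, L = 5 * M ^ (ε / 16) := ⟨_, rfl⟩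
    have hL1 : 1 ≤ L := by rw [hL]; linarith
    rw [← hL]
    have e1 : (r : ℝ) * T' ≤ L * (r * T) := by
      have e2 : (T' : ℝ) ≤ L * T := by
        rw [hT'R, hL, ← hR]
        have e3 : (H : ℝ) ≤ 4 * R := by linarith only [hH2, hR1]
        have e4 : (T : ℝ) ≤ R * T := le_mul_of_one_le_left (by positivity) hR1
        have e5 : 4 * R ≤ 4 * R * T := le_mul_of_one_le_right (by positivity) hT1
        linarith only [e3, e4, e5]
      calc (r : ℝ) * T' ≤ r * (L * T) := mul_le_mul_of_nonneg_left e2 (by positivity)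
        _ = L * (r * T) := by ring
    have e2 : ((r : ℝ) * T') ^ (3 / 5 : ℝ) ≤ L * ((r : ℝ) * T) ^ (3 / 5 : ℝ) := by
      calc ((r : ℝ) * T') ^ (3 / 5 : ℝ) ≤ (L * (r * T)) ^ (3 / 5 : ℝ) :=
            Real.rpow_le_rpow (by positivity) e1 (by norm_num)
        _ = L ^ (3 / 5 : ℝ) * ((r : ℝ) * T) ^ (3 / 5 : ℝ) := Real.mul_rpow (by positivity) (by positivity)
        _ ≤ L * ((r : ℝ) * T) ^ (3 / 5 : ℝ) := by
            apply mul_le_mul_of_nonneg_right _ (by positivity)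
            calc L ^ (3 / 5 : ℝ) ≤ L ^ (1 : ℝ) := Real.rpow_le_rpow_of_exponent_le hL1 (by norm_num)
              _ = L := Real.rpow_one L
    have e3 : M / V ≤ L * (M / V) := le_mul_of_one_le_left (by positivity) hL1
    rw [hE]
    simp only
    calc ((r : ℝ) * T' * M ^ (2 / 5 : ℝ) + ((r : ℝ) * T') ^ (3 / 5 : ℝ) * M ^ (3 / 5 : ℝ)) / V ^ (4 / 5 : ℝ) + M / V ≤
        (L * (r * T) * M ^ (2 / 5 : ℝ) + L * ((r : ℝ) * T) ^ (3 / 5 : ℝ) * M ^ (3 / 5 : ℝ)) / V ^ (4 / 5 : ℝ) +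
          L * (M / V) := by gcongr
      _ = _ := by ring
  have hE0 : 0 < E ((r : ℝ) * T) V := by linarith
  have hE0' : 0 ≤ K * G * E ((r : ℝ) * T') V := by
    rw [hE]
    simp only
    positivity
  calc (W.card : ℝ) ≤ ((CB * M ^ (ε / 8)) * (9 * M ^ (ε / 16))) * (K * G * E ((r : ℝ) * T') V) :=
        hcount.trans (mul_le_mul_of_nonneg_right hIcard hE0')
    _ ≤ ((CB * M ^ (ε / 8)) * (9 * M ^ (ε / 16))) * (K * G * (5 * M ^ (ε / 16) * E ((r : ℝ) * T) V)) := by gcongr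
    _ = (45 * CB * K0) * (M ^ (ε / 8) * M ^ (ε / 16) * M ^ (ε / 16) * M ^ (ε / 8) * M ^ (ε / 16)) *
        E ((r : ℝ) * T) V := by
        rw [hK, hG]
        ring
    _ ≤ C * M ^ ε * E ((r : ℝ) * T) V := by
        apply mul_le_mul_of_nonneg_right _ hE0.le
        apply mul_le_mul hC3 _ (by positivity) hC0.le
        rw [← Real.rpow_add hMpos, ← Real.rpow_add hMpos, ← Real.rpow_add hMpos, ← Real.rpow_add hMpos]
        apply Real.rpow_le_rpow_of_exponent_le hM1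
        linarith

end Pool.Agent.Helper25.WH
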