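import Pool.Agent.Helper25.WH.Asm
import Pool.Agent.Helper25.WH.LVH
import Pool.Agent.Helper62.WH.M4F
import Pool.Agent.Helper5.WB.M2L
import Pool.Agent.Helper88.WH.PLr2
import Pool.Agent.Helper88.WP.Main0
import Pool.Agent.Helper5.WB.LVR

/-!
# Theorem W++
-/

set_option autoImplicit false

namespace Pool.Agent.Helper25.WH

open Finset Pool.Helper19.V4 Pool.Helper19.WZ
open Pool.Agent.Helper25.WM (Bd)

theorem plr34 {a : ℝ} (ha : 1 / 2 ≤ a) (ha1 : a ≤ 3 / 4) (hZ : ZF a) : PLR (1 / 2) ((13 + 4 * a) / 20) :=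
  Pool.Agent.Helper88.WH.plr2 ha ha1 (Pool.Helper5.WB.mb ha (by linarith) hZ)
    (Pool.Helper5.WB.lvr (by linarith) (fun g h1 h2 => by
      have h0 : 0 ≤ g := by linarith
      unfold Pool.Agent.Helper88.WP.rI
      constructor
      · positivity
      · rw [div_le_iff₀ (by linarith)]
        linarith) Pool.Helper5.WB.box (Pool.Agent.Helper88.WP.fgr (by linarith))
      (Pool.Agent.Helper88.WP.fsrI (by linarith)))
    (lvh Pool.Helper5.WB.box Pool.Helper5.WB.m2l Pool.Agent.Helper62.WH.m4f)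

/-- Theorem W++. -/
theorem wpp {a : ℝ} (ha : 1 / 2 ≤ a) : (ZF a → Bd (hh a)) ∧ (Bd a → ZF a) :=
  wpp_of (fun _ h1 h2 hZ => plr34 h1 h2 hZ) ha

end Pool.Agent.Helper25.WH
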