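import Pool.Agent.Helper25.WH.Defs

/-!
# W++: the list split, Hölder's inequality and the arithmetic
-/

set_option autoImplicit false

namespace Pool.Agent.Helper25.WH

open ArithmeticFunction Finset
open Pool.Helper5.WB

lemma sz_nil : sz [] = 1 := by simp [sz]

lemma sz_cons (f : Bool × ℕ) (b : List (Bool × ℕ)) : sz (f :: b) = 2 ^ f.2 * sz b := by
  simp [sz]

lemma sz_append (b c : List (Bool × ℕ)) : sz (b ++ c) = sz b * sz c := by
  simp [sz]

lemma KP_cons (z q : ℕ) (f : Bool × ℕ) (b : List (Bool × ℕ)) {r : ℕ} (χ : DirichletCharacter ℂ r) (t : ℝ) :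
    KP z q (f :: b) χ t = ‖KF f.1 z f.2 q χ t‖ * KP z q b χ t := by
  simp [KP]

lemma KP_append (z q : ℕ) (b c : List (Bool × ℕ)) {r : ℕ} (χ : DirichletCharacter ℂ r) (t : ℝ) :
    KP z q (b ++ c) χ t = KP z q b χ t * KP z q c χ t := by
  simp [KP]

lemma KP_nonneg (z q : ℕ) (b : List (Bool × ℕ)) {r : ℕ} (χ : DirichletCharacter ℂ r) (t : ℝ) :
    0 ≤ KP z q b χ t := by
  induction b with
  | nil => simp [KP]
  | cons f b ih =>
    rw [KP_cons]
    positivity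

lemma sz_one (b : List (Bool × ℕ)) : (1 : ℝ) ≤ sz b := by
  induction b with
  | nil => simp [sz]
  | cons f b ih =>
    rw [sz_cons]
    push_cast
    have : (1 : ℝ) ≤ 2 ^ f.2 := one_le_pow₀ (by norm_num)
    nlinarith

/-- the split of a box -/
lemma split (b : List (Bool × ℕ)) : ∀ Y : ℝ, 1 ≤ Y → Y < sz b → ∃ (c : List (Bool × ℕ)) (f : Bool × ℕ)
    (d : List (Bool × ℕ)), b = c ++ f :: d ∧ (sz c : ℝ) ≤ Y ∧ Y < sz c * 2 ^ f.2 := by
  induction b with
  | nil =>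
    intro Y hY h
    rw [sz_nil] at h
    push_cast at h
    linarith
  | cons f b ih =>
    intro Y hY h
    have h2 : (0 : ℝ) < 2 ^ f.2 := by positivity
    rcases lt_or_ge Y (2 ^ f.2) with h1 | h1
    · refine ⟨[], f, b, rfl, ?_, ?_⟩
      · rw [sz_nil]
        push_cast
        exact hY
      · rw [sz_nil]
        push_cast
        linarith
    · have h3 : 1 ≤ Y / 2 ^ f.2 := by
        rw [le_div_iff₀ h2]
        linarith
      have h4 : Y / 2 ^ f.2 < sz b := by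
        rw [div_lt_iff₀ h2]
        rw [sz_cons] at h
        push_cast at h
        linarith
      obtain ⟨c, f', d, hb, hc, hf⟩ := ih _ h3 h4
      refine ⟨f :: c, f', d, by rw [hb]; rfl, ?_, ?_⟩
      · rw [sz_cons]
        push_cast
        rw [le_div_iff₀ h2] at hc
        linarith
      · rw [sz_cons]
        push_cast
        rw [div_lt_iff₀ h2] at hf
        calc Y < sz c * 2 ^ f'.2 * 2 ^ f.2 := hf
          _ = 2 ^ f.2 * sz c * 2 ^ f'.2 := by ring

/-- Hölder's inequality -/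
lemma holder3 {ι : Type*} (U : Finset ι) (x y w : ι → ℝ) {A B D V : ℝ} (hA : 0 < A) (hB : 0 < B) (hD : 0 < D)
    (hV : 0 ≤ V) (hx : ∀ p, 0 ≤ x p) (hy : ∀ p, 0 ≤ y p) (hw : ∀ p, 0 ≤ w p)
    (h1 : ∑ p ∈ U, x p ^ 2 ≤ A) (h2 : ∑ p ∈ U, y p ^ 2 ≤ B) (h3 : ∑ p ∈ U, w p ^ 4 ≤ D)
    (h : ∀ p ∈ U, V ≤ x p * w p * y p) :
    (U.card : ℝ) * V ^ (4 / 5 : ℝ) ≤ A ^ (2 / 5 : ℝ) * B ^ (2 / 5 : ℝ) * D ^ (1 / 5 : ℝ) := by
  have hP : 0 < A ^ (2 / 5 : ℝ) * B ^ (2 / 5 : ℝ) * D ^ (1 / 5 : ℝ) := by positivity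
  have key : ∀ p ∈ U, V ^ (4 / 5 : ℝ) / (A ^ (2 / 5 : ℝ) * B ^ (2 / 5 : ℝ) * D ^ (1 / 5 : ℝ)) ≤
      2 / 5 * (x p ^ 2 / A) + 2 / 5 * (y p ^ 2 / B) + 1 / 5 * (w p ^ 4 / D) := by
    intro p hp
    have e1 : (x p ^ 2 / A) ^ (2 / 5 : ℝ) * (y p ^ 2 / B) ^ (2 / 5 : ℝ) * (w p ^ 4 / D) ^ (1 / 5 : ℝ) =
        (x p * w p * y p) ^ (4 / 5 : ℝ) / (A ^ (2 / 5 : ℝ) * B ^ (2 / 5 : ℝ) * D ^ (1 / 5 : ℝ)) := by
      rw [Real.div_rpow (by positivity) hA.le, Real.div_rpow (by positivity) hB.le, Real.div_rpow (by positivity) hD.le,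
        Real.mul_rpow (mul_nonneg (hx p) (hw p)) (hy p), Real.mul_rpow (hx p) (hw p)]
      have g1 : (x p ^ 2) ^ (2 / 5 : ℝ) = x p ^ (4 / 5 : ℝ) := by
        rw [← Real.rpow_natCast (x p) 2, ← Real.rpow_mul (hx p)]
        norm_num
      have g2 : (y p ^ 2) ^ (2 / 5 : ℝ) = y p ^ (4 / 5 : ℝ) := by
        rw [← Real.rpow_natCast (y p) 2, ← Real.rpow_mul (hy p)]
        norm_num
      have g3 : (w p ^ 4) ^ (1 / 5 : ℝ) = w p ^ (4 / 5 : ℝ) := by
        rw [← Real.rpow_natCast (w p) 4, ← Real.rpow_mul (hw p)]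
        norm_num
      rw [g1, g2, g3]
      field_simp
    have e2 := Real.geom_mean_le_arith_mean3_weighted (w₁ := 2 / 5) (w₂ := 2 / 5) (w₃ := 1 / 5)
      (p₁ := x p ^ 2 / A) (p₂ := y p ^ 2 / B) (p₃ := w p ^ 4 / D) (by norm_num) (by norm_num) (by norm_num)
      (by positivity) (by positivity) (by positivity) (by norm_num)
    rw [e1] at e2
    refine le_trans ?_ e2
    apply div_le_div_of_nonneg_right _ hP.le
    exact Real.rpow_le_rpow hV (h p hp) (by norm_num)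
  have h4 := sum_le_sum key
  rw [sum_const, nsmul_eq_mul, sum_add_distrib, sum_add_distrib, ← mul_sum, ← mul_sum, ← mul_sum, ← sum_div, ← sum_div,
    ← sum_div] at h4
  have h5 : (∑ p ∈ U, x p ^ 2) / A ≤ 1 := by rw [div_le_one hA]; exact h1
  have h6 : (∑ p ∈ U, y p ^ 2) / B ≤ 1 := by rw [div_le_one hB]; exact h2
  have h7 : (∑ p ∈ U, w p ^ 4) / D ≤ 1 := by rw [div_le_one hD]; exact h3
  have h8 : (U.card : ℝ) * (V ^ (4 / 5 : ℝ) / (A ^ (2 / 5 : ℝ) * B ^ (2 / 5 : ℝ) * D ^ (1 / 5 : ℝ))) ≤ 1 := by linarith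
  rw [← mul_div_assoc, div_le_one hP] at h8
  exact h8

/-- Cauchy's inequality -/
lemma cauchy2 {ι : Type*} (U : Finset ι) (x y : ι → ℝ) {A B V : ℝ} (hA : 0 ≤ A) (hV : 0 ≤ V)
    (h1 : ∑ p ∈ U, x p ^ 2 ≤ A) (h2 : ∑ p ∈ U, y p ^ 2 ≤ B) (h : ∀ p ∈ U, V ≤ x p * y p) :
    ((U.card : ℝ) * V) ^ 2 ≤ A * B := by
  have h3 : (U.card : ℝ) * V ≤ ∑ p ∈ U, x p * y p := by
    rw [← nsmul_eq_mul]
    exact card_nsmul_le_sum _ _ _ h
  have h4 := sum_mul_sq_le_sq_mul_sq U x y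
  have h5 : ∑ p ∈ U, x p ^ 2 * 0 ≤ 0 := by simp
  calc ((U.card : ℝ) * V) ^ 2 ≤ (∑ p ∈ U, x p * y p) ^ 2 := pow_le_pow_left₀ (by positivity) h3 2
    _ ≤ (∑ p ∈ U, x p ^ 2) * ∑ p ∈ U, y p ^ 2 := h4
    _ ≤ A * B := mul_le_mul h1 h2 (sum_nonneg fun _ _ => sq_nonneg _) hA

/-- case 1: both products are short -/
lemma ar1 {K A a b e M G : ℝ} (hK : 1 ≤ K) (hA : 0 < A) (ha : 0 < a) (hb : 0 < b) (he : 0 < e) (hM : 0 < M)
    (hG : 1 ≤ G) (h : a * e * b ≤ M * G) :
    (K * (A * a)) ^ (2 / 5 : ℝ) * (K * (A * b)) ^ (2 / 5 : ℝ) * (K * (A * e ^ 2)) ^ (1 / 5 : ℝ) ≤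
      K * G * (A * M ^ (2 / 5 : ℝ)) := by
  have hK0 : 0 < K := by linarith
  have hG0 : 0 < G := by linarith
  have h1 : Real.log a + Real.log e + Real.log b ≤ Real.log M + Real.log G := by
    rw [← Real.log_mul ha.ne' he.ne', ← Real.log_mul (by positivity) hb.ne', ← Real.log_mul hM.ne' hG0.ne']
    exact Real.log_le_log (by positivity) h
  have hlG : 0 ≤ Real.log G := Real.log_nonneg hG
  rw [← Real.log_le_log_iff (by positivity) (by positivity), Real.log_mul (by positivity) (by positivity),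
    Real.log_mul (by positivity) (by positivity), Real.log_rpow (by positivity), Real.log_rpow (by positivity),
    Real.log_rpow (by positivity), Real.log_mul hK0.ne' (by positivity), Real.log_mul hK0.ne' (by positivity),
    Real.log_mul hK0.ne' (by positivity), Real.log_mul hA.ne' ha.ne', Real.log_mul hA.ne' hb.ne',
    Real.log_mul hA.ne' (by positivity), Real.log_mul (by positivity) (by positivity),
    Real.log_mul hK0.ne' hG0.ne', Real.log_mul hA.ne' (by positivity), Real.log_rpow hM, Real.log_pow]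
  push_cast
  linarith

/-- case 2: one product is long -/
lemma ar2 {K A a b e M G : ℝ} (hK : 1 ≤ K) (hA : 0 < A) (ha : 0 < a) (hb : 0 < b) (he : 0 < e) (hM : 0 < M)
    (hG : 1 ≤ G) (h : a * e * b ≤ M * G) (h2 : a ^ 2 ≤ M * G) :
    (K * a ^ 2) ^ (2 / 5 : ℝ) * (K * (A * b)) ^ (2 / 5 : ℝ) * (K * (A * e ^ 2)) ^ (1 / 5 : ℝ) ≤
      K * G * (A ^ (3 / 5 : ℝ) * M ^ (3 / 5 : ℝ)) := by
  have hK0 : 0 < K := by linarith
  have hG0 : 0 < G := by linarith
  have h1 : Real.log a + Real.log e + Real.log b ≤ Real.log M + Real.log G := by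
    rw [← Real.log_mul ha.ne' he.ne', ← Real.log_mul (by positivity) hb.ne', ← Real.log_mul hM.ne' hG0.ne']
    exact Real.log_le_log (by positivity) h
  have h3 : 2 * Real.log a ≤ Real.log M + Real.log G := by
    have e1 : Real.log (a ^ 2) = 2 * Real.log a := by
      rw [Real.log_pow]
      push_cast
      rfl
    rw [← e1, ← Real.log_mul hM.ne' hG0.ne']
    exact Real.log_le_log (by positivity) h2
  have hlG : 0 ≤ Real.log G := Real.log_nonneg hG
  rw [← Real.log_le_log_iff (by positivity) (by positivity), Real.log_mul (by positivity) (by positivity),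
    Real.log_mul (by positivity) (by positivity), Real.log_rpow (by positivity), Real.log_rpow (by positivity),
    Real.log_rpow (by positivity), Real.log_mul hK0.ne' (by positivity), Real.log_mul hK0.ne' (by positivity),
    Real.log_mul hK0.ne' (by positivity), Real.log_mul hA.ne' hb.ne',
    Real.log_mul hA.ne' (by positivity), Real.log_mul (by positivity) (by positivity),
    Real.log_mul hK0.ne' hG0.ne', Real.log_mul (by positivity) (by positivity), Real.log_rpow hM, Real.log_rpow hA,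
    Real.log_pow, Real.log_pow]
  push_cast
  linarith

end Pool.Agent.Helper25.WH
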